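import Pool.Agent.TH71.GR.Stm

set_option autoImplicit false

/-!
# GR PTLEV (helper159 for helper71): levels in polynomial time
-/

namespace Pool.Agent.TH159.GR

open Pool.Agent.NPC Pool.Agent.H558R2 Pool.Agent.H622R3.SM Pool.Agent.W920.FC Pool.Agent.W920.FD
open Pool.Agent.TH71.PG Pool.Agent.TH71.GR

namespace PTLEV

section poly

variable {α : Type} [TEnc α]

theorem pNxL {A B : α → List (List Reg)} (hA : Poly A) (hB : Poly B) :
    Poly (fun a => nxL (A a) (B a)) := by
  unfold nxL
  fun_prop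

theorem pPivs {L : α → List (List Reg)} {s : α → S2} (hL : Poly L) (hs : Poly s) :
    Poly (fun a => pivs (L a) (s a)) := by
  have h2 : Poly (fun a => List.range (L a).length) := (UPoly.length hL).range
  unfold pivs
  fun_prop

theorem pTk {J : α → ℕ} {l : α → List (List Reg)} (hJ : UPoly J) (hl : Poly l) :
    Poly (fun a => tk (J a) (l a)) := by
  have h2 : Poly (fun a => List.range (J a)) := hJ.range
  unfold tk
  fun_prop

theorem pHeadD {B : α → List (List Reg)} (hB : Poly B) : Poly (fun a => (B a).headD []) := by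
  have h : Poly (fun a => ((B a).head?).getD []) := Poly.optGetD (Poly.head? hB) (NPC.Poly.const [])
  refine h.congr fun a => ?_
  cases B a <;> rfl

end poly

theorem length_tk (J : ℕ) (l : List (List Reg)) : (tk J l).length ≤ J := by
  unfold tk
  rw [List.length_flatMap]
  have h : ∀ x ∈ (List.range J).map (fun i => (if i < l.length then [l.getD i []] else []).length),
      x ≤ 1 := by
    intro x hx
    obtain ⟨i, -, rfl⟩ := List.mem_map.1 hx
    split_ifs <;> simp
  have := List.sum_le_card_nsmul _ 1 h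
  simpa using this

theorem mem_tk {J : ℕ} {l : List (List Reg)} {e : List Reg} (h : e ∈ tk J l) : e ∈ l := by
  unfold tk at h
  rw [List.mem_flatMap] at h
  obtain ⟨i, -, hi⟩ := h
  split_ifs at hi with h1
  · rw [List.mem_singleton] at hi
    rw [hi, List.getD_eq_getElem _ _ h1]
    exact List.getElem_mem h1
  · exact absurd hi List.not_mem_nil

theorem mem_pivs {L : List (List Reg)} {s : S2} {e : List Reg} (h : e ∈ pivs L s) : e ∈ L := by
  unfold pivs at h
  rw [List.mem_flatMap] at h
  obtain ⟨i, hi0, hi⟩ := h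
  rw [List.mem_range] at hi0
  split_ifs at hi with h1
  · rw [List.mem_singleton] at hi
    rw [hi, List.getD_eq_getElem _ _ hi0]
    exact List.getElem_mem hi0
  · exact absurd hi List.not_mem_nil

/-- The outcomes of the levels. -/
theorem out_lev (T h J : ℕ) (o1 : List Reg) (A : List (List Reg)) :
    ∀ (i : ℕ) (B : List (List Reg)), Out (iter (lev T h J o1 A) i [[]]) B →
      B.length ≤ J + 1 ∧ ∀ e ∈ B, sz e ≤ 1 + i * (sz o1 + sz A) := by
  obtain ⟨q1, q2, q3, -⟩ := lOUT
  intro i
  induction i with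
  | zero =>
    intro B hB
    have hs : B = [[]] := q1 _ _ _ hB
    rw [hs]
    refine ⟨by simp, fun e he => ?_⟩
    rw [List.mem_singleton] at he
    rw [he]
    simp
  | succ i ih =>
    intro B hB
    obtain ⟨b, hb1, hb2⟩ := q3 _ _ _ _ _ hB
    obtain ⟨i1, i2⟩ := ih b hb1
    unfold lev at hb2
    obtain ⟨s, -, h3⟩ := q2 _ _ _ _ _ hb2
    have h5 := q1 _ _ _ h3
    rw [h5]
    have hA1 : 1 ≤ sz A := sz_pos A
    have ho1 : 1 ≤ sz o1 := sz_pos o1
    have hexp : (i + 1) * (sz o1 + sz A) = i * (sz o1 + sz A) + (sz o1 + sz A) := by ring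
    refine ⟨?_, fun e he => ?_⟩
    · rw [List.length_cons]
      exact Nat.succ_le_succ (length_tk _ _)
    · rcases List.mem_cons.1 he with he | he
      · have hh : sz (b.headD []) ≤ 1 + i * (sz o1 + sz A) := by
          cases b with
          | nil => simp
          | cons x b => exact i2 x (by simp)
        have := sz_append (b.headD []) o1
        rw [he]
        omega
      · have h6 := mem_pivs (mem_tk he)
        unfold nxL at h6
        rw [List.mem_flatMap] at h6
        obtain ⟨x, hx, h7⟩ := h6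
        obtain ⟨a, ha, rfl⟩ := List.mem_map.1 h7
        have h8 := i2 x hx
        have h9 := sz_le_of_mem ha
        have := sz_append x a
        omega

theorem sz_out_lev (T h J : ℕ) (o1 : List Reg) (A : List (List Reg)) (u i : ℕ) (hi : i ≤ u)
    (B : List (List Reg)) (hB : Out (iter (lev T h J o1 A) i [[]]) B) :
    sz B ≤ (J + 1) * (2 + u * (sz o1 + sz A)) + 1 := by
  obtain ⟨h1, h2⟩ := out_lev T h J o1 A i B hB
  have h3 := sz_le_length_mul B (1 + i * (sz o1 + sz A)) h2
  have h4 : i * (sz o1 + sz A) ≤ u * (sz o1 + sz A) := Nat.mul_le_mul_right _ hi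
  have h5 : B.length * (1 + i * (sz o1 + sz A) + 1) ≤ (J + 1) * (2 + u * (sz o1 + sz A)) :=
    Nat.mul_le_mul h1 (by omega)
  omega

end PTLEV

open PTLEV

/-- Levels in polynomial time. -/
theorem t_PTLEV : S_PTLEV := by
  intro α _ T h J u o1 A hT hh hJ hu ho1 hA
  obtain ⟨-, -, -, shr1, shr2, shr3, shr4⟩ := lOUT
  obtain ⟨pJ, hpJ⟩ := TQ1.upoly_bound hJ
  obtain ⟨pu, hpu⟩ := TQ1.upoly_bound hu
  obtain ⟨po, hpo⟩ := Pool.Agent.NPC.Poly.sz_le ho1
  obtain ⟨pA, hpA⟩ := Pool.Agent.NPC.Poly.sz_le hA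
  have c1 : Poly (fun p : α × List (List Reg) => p.1) := Pool.Agent.NPC.Poly.fst Pool.Agent.NPC.Poly.id
  have c2 : Poly (fun p : α × List (List Reg) => p.2) := Pool.Agent.NPC.Poly.snd Pool.Agent.NPC.Poly.id
  have hA' : Poly (fun p : α × List (List Reg) => A p.1) := hA.comp c1
  have hNx : Poly (fun p : α × List (List Reg) => nxL (A p.1) p.2) := pNxL hA' c2
  have hN : UPoly (fun p : α × List (List Reg) => (nxL (A p.1) p.2).length) := UPoly.length hNx
  have hV := TPV.pVL (hT.comp c1) hNx
  have hstep : PT (fun p : α × List (List Reg) =>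
      lev (T p.1) (h p.1) (J p.1) (o1 p.1) (A p.1) p.2) := by
    refine TFINAL.bndPT t_PT
      (fun p : α × List (List Reg) => stages (VL (T p.1) (nxL (A p.1) p.2))
        (pE (h p.1) (nxL (A p.1) p.2).length) (J p.1))
      (fun p s => (ret ((p.2.headD [] ++ o1 p.1) ::
        tk (J p.1) (pivs (nxL (A p.1) p.2) s)) : TT (List (List Reg)))) _ (fun _ => rfl) ?_ ?_
    · refine lQS (α × List (List Reg)) (fun p => VL (T p.1) (nxL (A p.1) p.2)) _ _ hV
        (u_pE (hh.comp c1) hN) (hJ.comp c1) ?_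
      intro a
      rw [VL_len]
      unfold pE
      omega
    · have d1 : Poly (fun p : (α × List (List Reg)) × S2 => p.1) :=
        Pool.Agent.NPC.Poly.fst Pool.Agent.NPC.Poly.id
      have d2 : Poly (fun p : (α × List (List Reg)) × S2 => p.2) :=
        Pool.Agent.NPC.Poly.snd Pool.Agent.NPC.Poly.id
      refine t_PT.1 _ _ _ (Pool.Agent.NPC.Poly.cons (Pool.Agent.NPC.Poly.append
        (pHeadD (c2.comp d1)) (ho1.comp (c1.comp d1))) ?_)
      exact pTk (hJ.comp (c1.comp d1)) (pPivs (hNx.comp d1) d2)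
  refine t_PTITER α (List (List Reg)) (fun a B => lev (T a) (h a) (J a) (o1 a) (A a) B) u
    (fun _ => [[]]) hstep hu (Pool.Agent.NPC.Poly.const _) ?_
    ⟨(pJ + 1) * (2 + pu * (po + pA)) + 1, ?_⟩
  · intro a B
    show Shr (lev (T a) (h a) (J a) (o1 a) (A a) B)
    unfold lev stages
    refine shr2 _ _ _ _ (shr4 _ _ _ _ fun t => ?_) fun t => shr1 _ _
    unfold Pool.Agent.W920.FD.stage
    refine shr2 _ _ _ _ (shr3 _) fun o => ?_
    refine shr2 _ _ _ _ (shr4 _ _ _ _ fun t => ?_) fun t => shr1 _ _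
    exact shr2 _ _ _ _ (shr3 _) fun o' => shr1 _ _
  · intro a i B hi hout
    refine (sz_out_lev (T a) (h a) (J a) (o1 a) (A a) (u a) i hi B hout).trans ?_
    simp only [Polynomial.eval_add, Polynomial.eval_mul, Polynomial.eval_one,
      Polynomial.eval_ofNat]
    refine Nat.succ_le_succ (Nat.mul_le_mul (Nat.succ_le_succ (hpJ a)) ?_)
    exact Nat.add_le_add_left (Nat.mul_le_mul (hpu a) (Nat.add_le_add (hpo a) (hpA a))) _

end Pool.Agent.TH159.GR
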